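import Pool.Agent.Y980.Final2

/-!
# MP_d1f1b2_pr: the dyadic LQG tilings with matter central charge in `(1, 25)` have no scaling limit
-/

set_option autoImplicit false

namespace Pool.Agent.Results.MP_d1f1b2_pr.NoScalingLimit

open MeasureTheory Filter Topology Pool.Agent.Y980

/-- Let `0 < Q < 2`.

(1) If `Q < √2`, then, with a probability which does not tend to `0`, the rooted tiling is not a
boundedly compact space, for any rescaling.

(2) If `Q ≥ √2`, the rescaled rooted tiling is a.s. a boundedly compact space for every `ε`.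

(3) For all `a ε > 0` and `b ε`: if random spaces `X ε` which are the rescaled rooted tilings with
probability tending to `1` converge in law for the local GHP topology to a random space `Y`, then
`a ε ≥ δ > 0` for arbitrarily small `ε`, and different points of `Y` have distance at least `δ`. -/
theorem result.{v, w} {Ω : Type v} [MeasurableSpace Ω] {P : Measure Ω} {h : ℝ → ℂ → Ω → ℝ}
    (hh : IsGFF P h) {Q : ℝ} (hQ : 0 < Q) (hQ' : Q < 2) :
    (Q < √2 → ∃ p > 0, ∃ᶠ ε in 𝓝[>] (0 : ℝ), p ≤ P {ω | ∀ a b : ℝ, 0 < a →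
      ¬ ∃ X, IsRescaled (tiling Q h ε ω) a b X}) ∧
    (√2 ≤ Q → ∀ᵐ ω ∂P, ∀ ε > 0, ∀ a b : ℝ, 0 < a → ∃ X, IsRescaled (tiling Q h ε ω) a b X) ∧
    ∀ a b : ℝ → ℝ, (∀ ε > 0, 0 < a ε) → ∀ X : ℝ → Ω → PMMSpace,
      Tendsto (fun ε => P {ω | ¬ IsRescaled (tiling Q h ε ω) (a ε) (b ε) (X ε ω)}) (𝓝[>] 0)
        (𝓝 0) →
      ∀ (Ω' : Type w) [MeasurableSpace Ω'] (P' : Measure Ω') [IsProbabilityMeasure P']
        (Y : Ω' → PMMSpace), ConvergesInLaw P X P' Y →
      ∃ δ > 0, (∃ᶠ ε in 𝓝[>] (0 : ℝ), δ ≤ a ε) ∧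
        ∀ᵐ ω' ∂P', ∀ p q : (Y ω').X, p ≠ q → δ ≤ dist p q :=
  complete hh hQ hQ'

end Pool.Agent.Results.MP_d1f1b2_pr.NoScalingLimit
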